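import Pool.Agent.H62.CYC.DefsP
import Pool.Agent.H49.CYC.Gr0
import Pool.Graph.R_seed8.W709.QAT.Calc
import Pool.Graph.R_seed8.W973.VcVc

/-!
# Project CYC2 (helper62), module WG (helper39): the growth and the signs of the weights
-/

set_option autoImplicit false

namespace Pool.Agent.H39.CYC

open Finset Filter MeasureTheory
open Pool.Agent.H62.CYC
open Pool.Agent.W707.TV (vh Rh Rh_pos)
open GapVol (lob lob_cont lob_sub g g_int)
open Pool.Agent.H49.CYC
open scoped Real Topology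

/-- concavity of Lobachevsky's function -/
lemma conc0 {b y : ℝ} (hb0 : 0 ≤ b) (hb1 : b ≤ π / 2) (hy0 : 0 ≤ y) (hy1 : y ≤ π / 2) :
    lob (b + y) + lob (b - y) ≤ 2 * lob b := by
  have hp := Real.pi_pos
  have h1 := lob_sub b (b + y)
  have h2 := lob_sub (b - y) b
  have h3 : ∫ t in (0 : ℝ)..y, g (b + t) = ∫ t in b..(b + y), g t := by
    rw [intervalIntegral.integral_comp_add_left (fun t => g t), add_zero]
  have h4 : ∫ t in (0 : ℝ)..y, g (b - t) = ∫ t in (b - y)..b, g t := by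
    rw [intervalIntegral.integral_comp_sub_left (fun t => g t), sub_zero]
  have i1 : IntervalIntegrable (fun t => g (b + t)) volume 0 y := by
    have := (g_int b (b + y)).comp_add_left b
    simpa using this
  have i2 : IntervalIntegrable (fun t => g (b - t)) volume 0 y := by
    have := (g_int b (b - y)).comp_sub_left b
    simpa using this
  have h5 : ∫ t in (0 : ℝ)..y, g (b + t) ≤ ∫ t in (0 : ℝ)..y, g (b - t) := by
    refine intervalIntegral.integral_mono_ae_restrict hy0 i1 i2 ?_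
    rw [EventuallyLE, ae_restrict_iff' measurableSet_Icc]
    have hne : ∀ᵐ t : ℝ, t ≠ b := by simp [ae_iff]
    filter_upwards [hne] with t ht0 ht
    have hs : Real.sin (b - t) ≠ 0 := by
      rcases lt_or_gt_of_ne ht0 with h | h
      · exact (Real.sin_pos_of_pos_of_lt_pi (by linarith) (by linarith [ht.1])).ne'
      · exact (Real.sin_neg_of_neg_of_neg_pi_lt (by linarith) (by linarith [ht.2])).ne
    refine EvenVol.LobIneq.g_le hs ?_
    rw [Real.sin_sub, Real.sin_add]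
    have s1 := Real.sin_nonneg_of_nonneg_of_le_pi hb0 (by linarith)
    have s2 := Real.sin_nonneg_of_nonneg_of_le_pi ht.1 (by linarith [ht.2])
    have c1 := Real.cos_nonneg_of_neg_pi_div_two_le_of_le (show -(π / 2) ≤ b by linarith) hb1
    have c2 := Real.cos_nonneg_of_neg_pi_div_two_le_of_le
      (show -(π / 2) ≤ t by linarith [ht.1]) (ht.2.trans hy1)
    have := mul_nonneg (mul_nonneg s1 c2) (mul_nonneg c1 s2)
    nlinarith
  linarith

lemma conc {b : ℝ} (hb0 : 0 ≤ b) (hb1 : b ≤ π / 2) (y : ℝ) :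
    lob (b - y) + lob (b + y) ≤ 2 * lob b := by
  obtain ⟨y', h0, h1, h2⟩ := Pool.Agent.W709.QAT.red y
  rw [h2 b]
  exact conc0 hb0 hb1 h0 h1

lemma WT_pos {M k : ℕ} (hk : M + 1 ≤ 2 * k) : 0 < WT M k := by
  unfold WT
  refine prod_pos fun j hj => ?_
  rw [mem_range] at hj
  have hp := Real.pi_pos
  have hM : (0 : ℝ) < 2 * M + 1 := by positivity
  have h1 : 0 < Real.cos (π * (2 * j + 1) / (2 * M + 1)) := by
    refine Real.cos_pos_of_mem_Ioo ⟨?_, ?_⟩
    · have : 0 ≤ π * (2 * (j : ℝ) + 1) / (2 * M + 1) := by positivity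
      linarith
    · rw [div_lt_iff₀ hM]
      have h2 : 2 * (2 * j + 1) < 2 * M + 1 := by omega
      have h3 : (2 * (2 * (j : ℝ) + 1)) < 2 * M + 1 := by exact_mod_cast h2
      nlinarith
  positivity

/-- the logarithm of a weight -/
lemma wg_log {M c i : ℕ} {δ : ℝ} (hB : ∀ k : ℕ, k < 2 * M + 1 →
    |Real.log ‖EvenVol.brf (vh M) k‖ + Rh M / π * lob (π * k / Rh M)| ≤ δ * M)
    (hk : c + i < M) :
    0 < |wg M c i| ∧
    |Real.log |wg M c i| - Rh M / π * (-2 * lob (π * ((c + i : ℕ) : ℝ) / Rh M) +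
      lob (π * (i : ℝ) / Rh M) + lob (π * ((2 * c + i + 1 : ℕ) : ℝ) / Rh M) +
      lob (π * ((2 * c + 2 * i + 1 : ℕ) : ℝ) / Rh M))| ≤ 5 * (δ * M) := by
  have h1 : 0 < |sf M (c + i)| := abs_pos.2 (sf_ne (by omega))
  have h2 : 0 < |sf M i| := abs_pos.2 (sf_ne (by omega))
  have h3 : 0 < |sf M (2 * c + i + 1)| := abs_pos.2 (sf_ne (by omega))
  have h4 : 0 < |sf M (2 * c + 2 * i + 1)| := abs_pos.2 (sf_ne (by omega))
  have e : |wg M c i| = |sf M (c + i)| ^ 2 /
      (|sf M i| * |sf M (2 * c + i + 1)| * |sf M (2 * c + 2 * i + 1)|) := by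
    unfold wg
    rw [abs_div, abs_mul, abs_mul, abs_pow]
  have hpos : 0 < |wg M c i| := by
    rw [e]
    positivity
  refine ⟨hpos, ?_⟩
  rw [e, Real.log_div (by positivity) (by positivity), Real.log_mul (by positivity) (by positivity),
    Real.log_mul (by positivity) (by positivity), Real.log_pow]
  have b1 := abs_le.1 (hB (c + i) (by omega))
  have b2 := abs_le.1 (hB i (by omega))
  have b3 := abs_le.1 (hB (2 * c + i + 1) (by omega))
  have b4 := abs_le.1 (hB (2 * c + 2 * i + 1) (by omega))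
  rw [norm_brf] at b1 b2 b3 b4
  set x1 := Rh M / π * lob (π * ((c + i : ℕ) : ℝ) / Rh M) with hx1
  set x2 := Rh M / π * lob (π * (i : ℝ) / Rh M) with hx2
  set x3 := Rh M / π * lob (π * ((2 * c + i + 1 : ℕ) : ℝ) / Rh M) with hx3
  set x4 := Rh M / π * lob (π * ((2 * c + 2 * i + 1 : ℕ) : ℝ) / Rh M) with hx4
  have e5 : Rh M / π * (-2 * lob (π * ((c + i : ℕ) : ℝ) / Rh M) +
      lob (π * (i : ℝ) / Rh M) + lob (π * ((2 * c + i + 1 : ℕ) : ℝ) / Rh M) +
      lob (π * ((2 * c + 2 * i + 1 : ℕ) : ℝ) / Rh M)) = -2 * x1 + x2 + x3 + x4 := by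
    rw [hx1, hx2, hx3, hx4]
    ring
  rw [e5]
  push_cast
  rw [abs_le]
  constructor <;> linarith [b1.1, b1.2, b2.1, b2.2, b3.1, b3.2, b4.1, b4.2]

lemma RpiM {M : ℕ} (hM : 1 ≤ M) : Rh M / π ≤ M := by
  have hRe : Rh M = M + 1 / 2 := rfl
  rw [div_le_iff₀ Real.pi_pos, hRe]
  have h1 : (1 : ℝ) ≤ M := by exact_mod_cast hM
  nlinarith [Real.pi_gt_three]

theorem wgu (hW : S_PLOGW) : S_WGU := by
  intro ε hε
  have hp := Real.pi_pos
  obtain ⟨δ, hδ, hu⟩ := Pool.Agent.W125.TV.lob_uc (show 0 < ε / 10 by positivity)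
  have t3 : ∀ᶠ M : ℕ in atTop, 2 * π / (M : ℝ) < δ :=
    (tendsto_const_div_atTop_nhds_zero_nat (2 * π)).eventually (gt_mem_nhds hδ)
  filter_upwards [Pool.Agent.W125.TV.brf_asymp (ε / 20) (by positivity), t3,
    hW (ε / 10) (by positivity), eventually_ge_atTop 1] with M hB hM hLW hM1
  intro c i hk hk2
  have hR := Rh_pos M
  have hRe : Rh M = M + 1 / 2 := rfl
  have hMr : (1 : ℝ) ≤ M := by exact_mod_cast hM1
  have hM0 : (0 : ℝ) < M := by linarith
  obtain ⟨hpos, hlog⟩ := wg_log hB hk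
  obtain ⟨k, hkdef⟩ : ∃ k : ℕ, k = c + i := ⟨_, rfl⟩
  rw [← hkdef] at hk hk2 hlog ⊢
  have hdel : 2 * π / Rh M < δ := by
    refine lt_of_le_of_lt ?_ hM
    exact div_le_div_of_nonneg_left (by positivity) hM0 (by rw [hRe]; linarith)
  have hdel' : π / Rh M < δ := by
    refine lt_of_le_of_lt ?_ hdel
    exact div_le_div_of_nonneg_right (by linarith) hR.le
  obtain ⟨a, ha⟩ : ∃ a : ℝ, a = π * (k : ℝ) / Rh M := ⟨_, rfl⟩
  obtain ⟨γ, hγ⟩ : ∃ γ : ℝ, γ = π * (c : ℝ) / Rh M := ⟨_, rfl⟩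
  have hkr : (k : ℝ) = c + i := by
    rw [hkdef]
    push_cast
    ring
  have hkM : (k : ℝ) ≤ M := by exact_mod_cast hk.le
  have hkM2 : (M : ℝ) + 1 ≤ 2 * k := by exact_mod_cast hk2
  have ha0 : π / 2 ≤ a := by
    rw [ha, le_div_iff₀ hR, hRe]
    nlinarith
  have ha1 : a ≤ π := by
    rw [ha, div_le_iff₀ hR, hRe]
    nlinarith
  have u2 : |lob (π * ((2 * c + i + 1 : ℕ) : ℝ) / Rh M) - lob (a + γ)| ≤ ε / 10 := by
    have e1 : π * ((2 * c + i + 1 : ℕ) : ℝ) / Rh M - (a + γ) = π / Rh M := by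
      rw [ha, hγ, hkr]
      push_cast
      field_simp
      ring
    have hc0 : (0 : ℝ) ≤ c := Nat.cast_nonneg c
    have hik : (c : ℝ) ≤ k := by
      rw [hkr]
      have : (0 : ℝ) ≤ i := Nat.cast_nonneg i
      linarith
    refine hu _ ⟨by positivity, ?_⟩ _ ⟨by rw [ha, hγ]; positivity, ?_⟩ ?_
    · rw [div_le_iff₀ hR, hRe]
      have : ((2 * c + i + 1 : ℕ) : ℝ) ≤ ((2 * M : ℕ) : ℝ) := by exact_mod_cast (by omega)
      push_cast at this ⊢
      nlinarith
    · rw [ha, hγ, ← add_div, div_le_iff₀ hR, hRe]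
      nlinarith
    · rw [e1, abs_of_pos (by positivity)]
      exact hdel'
  have u3 : |lob (π * ((2 * c + 2 * i + 1 : ℕ) : ℝ) / Rh M) - lob (2 * a)| ≤ ε / 10 := by
    have e1 : π * ((2 * c + 2 * i + 1 : ℕ) : ℝ) / Rh M - 2 * a = π / Rh M := by
      rw [ha, hkr]
      push_cast
      field_simp
      ring
    refine hu _ ⟨by positivity, ?_⟩ _ ⟨by rw [ha]; positivity, by linarith⟩ ?_
    · rw [div_le_iff₀ hR, hRe]
      have : ((2 * c + 2 * i + 1 : ℕ) : ℝ) ≤ ((2 * M : ℕ) : ℝ) := by exact_mod_cast (by omega)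
      push_cast at this ⊢
      nlinarith
    · rw [e1, abs_of_pos (by positivity)]
      exact hdel'
  have e0 : π * (i : ℝ) / Rh M = a - γ := by
    rw [ha, hγ, hkr]
    field_simp
    ring
  rw [← ha, e0] at hlog
  -- the inequality for Lobachevsky's function
  have hper := EvenVol.LobIneq.lob_per
  have hc := conc (b := a - π / 2) (by linarith) (by linarith) (π / 2 - γ)
  have e1 : a - π / 2 + (π / 2 - γ) = a - γ := by ring
  have e2 : lob (a - π / 2 - (π / 2 - γ)) = lob (a + γ) := by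
    rw [← hper (a - π / 2 - (π / 2 - γ))]
    congr 1
    ring
  rw [e1, e2] at hc
  have e3 := Pool.Agent.W973.VcVc.lob_dup2 a
  have e4 : lob (π / 2 + a) = lob (a - π / 2) := by
    rw [← hper (a - π / 2)]
    congr 1
    ring
  rw [e4] at e3
  have hW1 := (abs_le.1 (hLW k hk hk2)).1
  have e5 : (2 * π * (k : ℝ) / Rh M - π) / 2 = a - π / 2 := by
    rw [ha]
    ring
  rw [e5] at hW1
  have hRM := RpiM hM1
  have hRp : 0 ≤ Rh M / π := by positivity
  have hup := (abs_le.1 hlog).2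
  have hu2 := (abs_le.1 u2).2
  have hu3 := (abs_le.1 u3).2
  have key : -2 * lob a + lob (a - γ) + lob (π * ((2 * c + i + 1 : ℕ) : ℝ) / Rh M) +
      lob (π * ((2 * c + 2 * i + 1 : ℕ) : ℝ) / Rh M) ≤ 4 * lob (a - π / 2) + 2 * (ε / 10) := by
    linarith
  have key2 := mul_le_mul_of_nonneg_left key hRp
  have key3 : Rh M / π * (2 * (ε / 10)) ≤ M * (2 * (ε / 10)) :=
    mul_le_mul_of_nonneg_right hRM (by positivity)
  have e6 : Rh M / (4 * π) * (8 * lob (a - π / 2)) = Rh M / π * (2 * lob (a - π / 2)) := by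
    field_simp
    ring
  rw [e6] at hW1
  have hWT := WT_pos hk2
  rw [← Real.exp_log hpos, ← Real.exp_log (show 0 < WT M k ^ 2 by positivity), ← Real.exp_add,
    Real.exp_le_exp, Real.log_pow]
  push_cast
  have e7 : Rh M / π * (4 * lob (a - π / 2) + 2 * (ε / 10)) =
      2 * (Rh M / π * (2 * lob (a - π / 2))) + Rh M / π * (2 * (ε / 10)) := by ring
  rw [e7] at key2
  have hεM : 0 < ε * M := by positivity
  linarith

theorem wgl (hW : S_PLOGW) : S_WGL := by
  intro ε hε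
  have hp := Real.pi_pos
  obtain ⟨δ, hδ, hu⟩ := Pool.Agent.W125.TV.lob_uc (show 0 < ε / 10 by positivity)
  have t3 : ∀ᶠ M : ℕ in atTop, 2 * π / (M : ℝ) < δ :=
    (tendsto_const_div_atTop_nhds_zero_nat (2 * π)).eventually (gt_mem_nhds hδ)
  filter_upwards [Pool.Agent.W125.TV.brf_asymp (ε / 20) (by positivity), t3,
    hW (ε / 10) (by positivity), eventually_ge_atTop 1] with M hB hM hLW hM1
  intro k hk hk2
  obtain ⟨c, hcdef⟩ : ∃ c : ℕ, c = (M + 1) / 2 := ⟨_, rfl⟩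
  obtain ⟨i, hkdef⟩ : ∃ i : ℕ, k = c + i := ⟨k - c, by omega⟩
  refine ⟨c, i, hkdef.symm, by omega, ?_⟩
  have hR := Rh_pos M
  have hRe : Rh M = M + 1 / 2 := rfl
  have hMr : (1 : ℝ) ≤ M := by exact_mod_cast hM1
  have hM0 : (0 : ℝ) < M := by linarith
  obtain ⟨hpos, hlog⟩ := wg_log (c := c) (i := i) hB (by omega)
  rw [← hkdef] at hlog
  have hdel : 2 * π / Rh M < δ := by
    refine lt_of_le_of_lt ?_ hM
    exact div_le_div_of_nonneg_left (by positivity) hM0 (by rw [hRe]; linarith)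
  obtain ⟨a, ha⟩ : ∃ a : ℝ, a = π * (k : ℝ) / Rh M := ⟨_, rfl⟩
  have hkr : (k : ℝ) = c + i := by
    rw [hkdef]
    push_cast
    ring
  have hkM : (k : ℝ) ≤ M := by exact_mod_cast hk.le
  have hkM2 : (M : ℝ) + 1 ≤ 2 * k := by exact_mod_cast hk2
  have c3 : (M : ℝ) ≤ ((2 * c : ℕ) : ℝ) := by exact_mod_cast (by omega : M ≤ 2 * c)
  have c4 : ((2 * c : ℕ) : ℝ) ≤ M + 1 := by exact_mod_cast (by omega : 2 * c ≤ M + 1)
  push_cast at c3 c4
  have ha0 : π / 2 ≤ a := by
    rw [ha, le_div_iff₀ hR, hRe]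
    nlinarith
  have ha1 : a ≤ π := by
    rw [ha, div_le_iff₀ hR, hRe]
    nlinarith
  have aux : ∀ (n : ℕ) (x t : ℝ), π * (n : ℝ) / Rh M - x = π / Rh M * t → |t| ≤ 2 → 0 ≤ x →
      x ≤ 2 * π → n ≤ 2 * M + 1 → |lob (π * (n : ℝ) / Rh M) - lob x| ≤ ε / 10 := by
    intro n x t h1 h2 h3 h4 h5
    refine hu _ ⟨by positivity, ?_⟩ _ ⟨h3, h4⟩ ?_
    · rw [div_le_iff₀ hR, hRe]
      have : (n : ℝ) ≤ ((2 * M + 1 : ℕ) : ℝ) := by exact_mod_cast h5
      push_cast at this
      nlinarith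
    · rw [h1, abs_mul, abs_of_pos (show 0 < π / Rh M by positivity)]
      refine lt_of_le_of_lt ?_ hdel
      calc π / Rh M * |t| ≤ π / Rh M * 2 := mul_le_mul_of_nonneg_left h2 (by positivity)
        _ = 2 * π / Rh M := by ring
  have u1 : |lob (π * (i : ℝ) / Rh M) - lob (a - π / 2)| ≤ ε / 10 := by
    refine aux i _ (Rh M / 2 - c) ?_ ?_ (by linarith) (by linarith) (by omega)
    · rw [ha, hkr]
      field_simp
      ring
    · rw [abs_le, hRe]
      constructor <;> linarith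
  have u2 : |lob (π * ((2 * c + i + 1 : ℕ) : ℝ) / Rh M) - lob (a + π / 2)| ≤ ε / 10 := by
    refine aux _ _ (c + 1 - Rh M / 2) ?_ ?_ (by linarith) (by linarith) (by omega)
    · rw [ha, hkr]
      push_cast
      field_simp
      ring
    · rw [abs_le, hRe]
      constructor <;> linarith
  have u3 : |lob (π * ((2 * c + 2 * i + 1 : ℕ) : ℝ) / Rh M) - lob (2 * a)| ≤ ε / 10 := by
    refine aux _ _ 1 ?_ (by norm_num) (by linarith) (by linarith) (by omega)
    rw [ha, hkr]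
    push_cast
    field_simp
    ring
  rw [← ha] at hlog
  have hper := EvenVol.LobIneq.lob_per
  have e3 := Pool.Agent.W973.VcVc.lob_dup2 a
  have e4 : lob (π / 2 + a) = lob (a - π / 2) := by
    rw [← hper (a - π / 2)]
    congr 1
    ring
  have e4' : lob (a + π / 2) = lob (a - π / 2) := by
    rw [add_comm, e4]
  rw [e4] at e3
  rw [e4'] at u2
  have hW1 := (abs_le.1 (hLW k hk hk2)).2
  have e5 : (2 * π * (k : ℝ) / Rh M - π) / 2 = a - π / 2 := by
    rw [ha]
    ring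
  rw [e5] at hW1
  have hRM := RpiM hM1
  have hRp : 0 ≤ Rh M / π := by positivity
  have hlo := (abs_le.1 hlog).1
  have hu1 := (abs_le.1 u1).1
  have hu2 := (abs_le.1 u2).1
  have hu3 := (abs_le.1 u3).1
  have key : 4 * lob (a - π / 2) - 3 * (ε / 10) ≤ -2 * lob a + lob (π * (i : ℝ) / Rh M) +
      lob (π * ((2 * c + i + 1 : ℕ) : ℝ) / Rh M) +
      lob (π * ((2 * c + 2 * i + 1 : ℕ) : ℝ) / Rh M) := by
    linarith
  have key2 := mul_le_mul_of_nonneg_left key hRp
  have key3 : Rh M / π * (3 * (ε / 10)) ≤ M * (3 * (ε / 10)) :=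
    mul_le_mul_of_nonneg_right hRM (by positivity)
  have e6 : Rh M / (4 * π) * (8 * lob (a - π / 2)) = Rh M / π * (2 * lob (a - π / 2)) := by
    field_simp
    ring
  rw [e6] at hW1
  have hWT := WT_pos hk2
  rw [← Real.exp_log hpos, ← Real.exp_log (show 0 < WT M k ^ 2 by positivity), ← Real.exp_add,
    Real.exp_le_exp, Real.log_pow]
  push_cast
  have e7 : Rh M / π * (4 * lob (a - π / 2) - 3 * (ε / 10)) =
      2 * (Rh M / π * (2 * lob (a - π / 2))) - Rh M / π * (3 * (ε / 10)) := by ring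
  rw [e7] at key2
  have hεM : 0 < ε * M := by positivity
  linarith

theorem psgn : S_PSGN := by
  intro M c i h h2
  have h1 := grC M c i h h2
  have n1 : 0 < sf M (c + i) := sf_pos (by omega)
  have n2 : sf M (2 * c + 2 * i + 1) ≠ 0 := sf_ne (by omega)
  have e : (-1) ^ i * wg M c i = (-1) ^ i * (sf M (2 * c + 2 * i + 1) /
      (sf M i * sf M (2 * c + i + 1))) * (sf M (c + i) ^ 2 / sf M (2 * c + 2 * i + 1) ^ 2) := by
    unfold wg
    have n3 : sf M i ≠ 0 := sf_ne (by omega)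
    have n4 : sf M (2 * c + i + 1) ≠ 0 := sf_ne (by omega)
    field_simp
  rw [e]
  exact mul_pos h1 (by positivity)

end Pool.Agent.H39.CYC
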